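import Mathlib
import Pool.Agent.H.MP_eab5ac_an.Poly

set_option autoImplicit false

namespace Pool.Agent.Results.MP_eab5ac_an.Counter

def PosSol (n : ℝ) (f : ℝ → ℝ → ℝ) (lam : ℝ) (u : ℝ → ℝ) : Prop :=
  0 < lam ∧ ContDiff ℝ 2 u ∧
    (∀ r ∈ Set.Ioo (0 : ℝ) 1, deriv (deriv u) r + (n - 1) / r * deriv u r + lam * f r (u r) = 0) ∧
    deriv u 0 = 0 ∧ u 1 = 0 ∧ ∀ r ∈ Set.Ico (0 : ℝ) 1, 0 < u r

open Pool.Agent.H.MP_eab5ac_an in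
theorem result : ∃ f : ℝ → ℝ → ℝ, ContDiff ℝ 1 (Function.uncurry f) ∧
    (∀ r ∈ Set.Icc (0 : ℝ) 1, ∀ v : ℝ, deriv (fun s => f s v) r ≤ 0) ∧
    ∃ (l₁ l₂ : ℝ) (u₁ u₂ : ℝ → ℝ), PosSol 3 f l₁ u₁ ∧ PosSol 3 f l₂ u₂ ∧ u₁ 0 = u₂ 0 ∧ l₁ ≠ l₂ := by
  have d1 : deriv u1 = u1d := funext fun r => (u1_d r).deriv
  have d2 : deriv u2 = u2d := funext fun r => (u2_d r).deriv
  have hp : ∀ r ∈ Set.Ico (0 : ℝ) 1, 0 ≤ r ^ 2 ∧ r ^ 2 < 1 := fun r hr =>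
    ⟨sq_nonneg r, by nlinarith [hr.1, hr.2]⟩
  refine ⟨fun r v => v - c r, ?_, fun r hr v => ?_, 35 / 2, 18, u1, u2,
    ⟨by norm_num, u1_cd 2, fun r hr => ?_, ?_, ?_, fun r hr => ?_⟩,
    ⟨by norm_num, u2_cd 2, fun r hr => ?_, ?_, ?_, fun r hr => ?_⟩, ?_, by norm_num⟩
  · exact contDiff_snd.sub ((c_cd 1).comp contDiff_fst)
  · rw [((c_d r).const_sub v).deriv, cd_fac]
    have := q3_pos (r ^ 2) (sq_nonneg r) (by nlinarith [hr.1, hr.2])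
    have := mul_nonneg hr.1 this
    linarith
  · rw [d1, (u1_e r).deriv]
    have := u1_ode r
    have h := hr.1.ne'
    field_simp
    linarith
  · rw [d1]; simp [u1d]
  · rw [u1_fac]; simp
  · rw [u1_fac]
    have := q1_pos _ (hp r hr).1 (hp r hr).2.le
    exact mul_pos (sub_pos.2 (hp r hr).2) (by linarith)
  · rw [d2, (u2_e r).deriv]
    have := u2_ode r
    have h := hr.1.ne'
    field_simp
    linarith
  · rw [d2]; simp [u2d]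
  · rw [u2_fac]; simp
  · rw [u2_fac]
    have := q2_pos _ (hp r hr).1 (hp r hr).2.le
    exact mul_pos (sub_pos.2 (hp r hr).2) (by linarith)
  · simp [u1, u2]

end Pool.Agent.Results.MP_eab5ac_an.Counter
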